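import Pool.Agent.Lib.MP_023270_nt.Final

/-! # Negative answer to the question of Ki and Kim (MP_023270_nt, Q1)

For every real `λ < 0` a positive proportion of the zeros of
`Ξ_λ(z) = ∫ Φ(t) e^{λt²} e^{izt} dt` is non-real.

Definitions (in `Pool.Agent.Lib.MP_023270_nt.Defs`):
* `Phi t = 2 ∑_{n ≥ 1} (2π²n⁴e^{9t/2} − 3πn²e^{5t/2}) e^{−πn²e^{2t}}`;
* `Xi lam z = ∫_{ℝ} Φ(t) e^{lam t²} e^{izt} dt`;
* `zeroCount f S` = sum over `z ∈ S` of the vanishing order of `f` at `z`.
-/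

open Filter Topology

namespace Pool.Agent.Results.MP_023270_nt.Disproof

open Pool.Agent.XiDeform

/-- For every real `lam < 0` the function `Ξ_lam` is entire, has finitely many zeros in every strip
`|Re z| ≤ T`, and there is `δ > 0` such that for all large `T` it has at least `δ T log T` non-real
zeros with `|Re z| ≤ T` (with multiplicity), and the number of its real zeros with `|z| ≤ T` is at
most `(1 - δ)` times the number of all its zeros with `|Re z| ≤ T`. In particular the proportion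
of real zeros does not tend to `1`, for any `lam < 0`. -/
theorem result (lam : ℝ) (hlam : lam < 0) :
    Differentiable ℂ (Xi lam) ∧
    (∀ T : ℝ, {z : ℂ | Xi lam z = 0 ∧ |z.re| ≤ T}.Finite) ∧
    (∃ δ : ℝ, 0 < δ ∧ ∀ᶠ T : ℝ in atTop,
      δ * T * Real.log T ≤ (zeroCount (Xi lam) {z | z.im ≠ 0 ∧ |z.re| ≤ T} : ℝ) ∧
      (zeroCount (Xi lam) {z | z.im = 0 ∧ ‖z‖ ≤ T} : ℝ)
        ≤ (1 - δ) * (zeroCount (Xi lam) {z | |z.re| ≤ T} : ℝ)) ∧
    ¬ Tendsto (fun T : ℝ => (zeroCount (Xi lam) {z | z.im = 0 ∧ ‖z‖ ≤ T} : ℝ)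
        / (zeroCount (Xi lam) {z | |z.re| ≤ T} : ℝ)) atTop (𝓝 1) := by
  have h := main (-lam) (by linarith)
  rwa [neg_neg] at h

end Pool.Agent.Results.MP_023270_nt.Disproof
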